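import Pool.Agent.R700.PrimWord

set_option autoImplicit false

namespace Pool.Agent.Results.MP_1698af_al.PrimitiveBasis

open MonoidAlgebra Pool.Agent.R700.Prim

universe u v

noncomputable section

/-- `T` is (the vertex set of) a subtree of the right Cayley graph of the free group on `B`: any
two elements of `T` are joined by a path inside `T`, where the edges go from `g` to `g * b`. -/
def IsSubtree {B : Type v} (T : Set (FreeGroup B)) : Prop :=
  ∀ s ∈ T, ∀ t ∈ T, Relation.ReflTransGen
    (fun g h => g ∈ T ∧ h ∈ T ∧ ∃ b : B, h = g * FreeGroup.of b ∨ g = h * FreeGroup.of b) s t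

/-- The support of `a` lies in `T`. -/
def SupportedOn {K : Type u} [Field K] {G : Type v} [Group G] (T : Set G)
    (a : MonoidAlgebra K G) : Prop := ∀ g, a.coeff g ≠ 0 → g ∈ T

/-- `S` is a basis (a free generating set) of the right ideal `I` of `R`. -/
def IsBasis {R : Type u} [Ring R] (S : Set R) (I : Submodule Rᵐᵒᵖ R) : Prop :=
  LinearIndependent Rᵐᵒᵖ (Subtype.val : S → R) ∧ Submodule.span Rᵐᵒᵖ S = I

/-- The right ideal `I` is generated by its elements supported on `T`. -/
def GeneratedOn {K : Type u} [Field K] {G : Type v} [Group G] (T : Set G)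
    (I : Submodule (MonoidAlgebra K G)ᵐᵒᵖ (MonoidAlgebra K G)) : Prop :=
  Submodule.span (MonoidAlgebra K G)ᵐᵒᵖ {a | a ∈ I ∧ SupportedOn T a} = I

section evl

variable {R : Type*} [Ring R]

theorem linInd_iff {ι : Type*} (z : ι → R) :
    LinearIndependent Rᵐᵒᵖ z ↔ ∀ v : ι →₀ R, v.sum (fun i a => z i * a) = 0 → v = 0 := by
  rw [linearIndependent_iff]
  constructor
  · intro h v hv
    have h1 := h (v.mapRange MulOpposite.op rfl) (by
      rw [Finsupp.linearCombination_apply, Finsupp.sum_mapRange_index (by simp)]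
      exact hv)
    ext i
    have := DFunLike.congr_fun h1 i
    rw [Finsupp.mapRange_apply] at this
    exact MulOpposite.op_injective this
  · intro h l hl
    have h1 := h (l.mapRange MulOpposite.unop rfl) (by
      rw [Finsupp.sum_mapRange_index (by simp)]
      rw [Finsupp.linearCombination_apply] at hl
      exact hl)
    ext i
    have := DFunLike.congr_fun h1 i
    rw [Finsupp.mapRange_apply] at this
    exact MulOpposite.unop_injective this

theorem mem_span_iff {ι : Type*} (z : ι → R) (x : R) :
    x ∈ Submodule.span Rᵐᵒᵖ (Set.range z) ↔ ∃ v : ι →₀ R, v.sum (fun i a => z i * a) = x := by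
  rw [Finsupp.mem_span_range_iff_exists_finsupp]
  constructor
  · rintro ⟨c, hc⟩
    refine ⟨c.mapRange MulOpposite.unop rfl, ?_⟩
    rw [Finsupp.sum_mapRange_index (by simp)]
    exact hc
  · rintro ⟨c, hc⟩
    refine ⟨c.mapRange MulOpposite.op rfl, ?_⟩
    rw [Finsupp.sum_mapRange_index (by simp)]
    exact hc

end evl

section main

variable {K : Type u} [Field K] {B : Type v}

/-- evaluation of a formal combination of elements of `S` -/
def eval (S : Set (MonoidAlgebra K (FreeGroup B))) : (S →₀ (MonoidAlgebra K (FreeGroup B))) →ₗ[K] (MonoidAlgebra K (FreeGroup B)) :=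
  Finsupp.lsum K (fun s : S => LinearMap.mulLeft K (s : (MonoidAlgebra K (FreeGroup B))))

theorem eval_apply (S : Set (MonoidAlgebra K (FreeGroup B))) (v : S →₀ (MonoidAlgebra K (FreeGroup B))) : eval S v = v.sum (fun s a => (s : (MonoidAlgebra K (FreeGroup B))) * a) := by
  rw [eval, Finsupp.lsum_apply]
  rfl

/-- right translation of formal combinations -/
def rho (S : Set (MonoidAlgebra K (FreeGroup B))) (g : (FreeGroup B)) : (S →₀ (MonoidAlgebra K (FreeGroup B))) →ₗ[K] (S →₀ (MonoidAlgebra K (FreeGroup B))) :=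
  Finsupp.mapRange.linearMap (LinearMap.mulRight K (single g (1 : K) : (MonoidAlgebra K (FreeGroup B))))

theorem rho_apply (S : Set (MonoidAlgebra K (FreeGroup B))) (g : (FreeGroup B)) (v : S →₀ (MonoidAlgebra K (FreeGroup B))) (s : S) :
    rho S g v s = v s * single g (1 : K) := by
  simp [rho]

/-- right multiplication of formal combinations by `x` -/
def mulV (S : Set (MonoidAlgebra K (FreeGroup B))) (x : (MonoidAlgebra K (FreeGroup B))) : (S →₀ (MonoidAlgebra K (FreeGroup B))) →ₗ[K] (S →₀ (MonoidAlgebra K (FreeGroup B))) :=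
  Finsupp.mapRange.linearMap (LinearMap.mulRight K x)

theorem mulV_apply (S : Set (MonoidAlgebra K (FreeGroup B))) (x : (MonoidAlgebra K (FreeGroup B))) (v : S →₀ (MonoidAlgebra K (FreeGroup B))) (s : S) :
    mulV S x v s = v s * x := by
  simp [mulV]

theorem mulV_eq (S : Set (MonoidAlgebra K (FreeGroup B))) (x : (MonoidAlgebra K (FreeGroup B))) (v : S →₀ (MonoidAlgebra K (FreeGroup B))) :
    mulV S x v = x.coeff.sum (fun g t => t • rho S g v) := by
  induction x using MonoidAlgebra.induction_linear with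
  | zero =>
    rw [coeff_zero, Finsupp.sum_zero_index]
    ext s; rw [mulV_apply]; simp
  | add x y hx hy =>
    rw [coeff_add, Finsupp.sum_add_index', ← hx, ← hy]
    · ext s : 1
      rw [Finsupp.add_apply, mulV_apply, mulV_apply, mulV_apply, mul_add]
    · intro g; simp
    · intro g s t; rw [add_smul]
  | single g t =>
    rw [coeff_single, Finsupp.sum_single_index (by simp)]
    ext s : 1
    rw [mulV_apply, Finsupp.smul_apply, rho_apply, ← mul_smul_comm, smul_single, smul_eq_mul,
      mul_one]

theorem eval_mulV (S : Set (MonoidAlgebra K (FreeGroup B))) (x : (MonoidAlgebra K (FreeGroup B))) (v : S →₀ (MonoidAlgebra K (FreeGroup B))) : eval S (mulV S x v) = eval S v * x := by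
  rw [eval_apply, eval_apply, mulV, Finsupp.mapRange.linearMap_apply,
    Finsupp.sum_mapRange_index (by simp), Finsupp.sum_mul]
  refine Finsupp.sum_congr fun s _ => ?_
  rw [LinearMap.mulRight_apply, mul_assoc]

/-- coordinates outside `f` -/
def Phi (S : Set (MonoidAlgebra K (FreeGroup B))) (f : (MonoidAlgebra K (FreeGroup B))) : (S →₀ (MonoidAlgebra K (FreeGroup B))) →ₗ[K] ({s : S | (s : (MonoidAlgebra K (FreeGroup B))) ≠ f} × (FreeGroup B) →₀ K) :=
  (Finsupp.curryLinearEquiv K).symm.toLinearMap ∘ₗ
    Finsupp.mapRange.linearMap (coeffLinearEquiv K).toLinearMap ∘ₗ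
      Finsupp.lsubtypeDomain {s : S | (s : (MonoidAlgebra K (FreeGroup B))) ≠ f}

theorem Phi_apply (S : Set (MonoidAlgebra K (FreeGroup B))) (f : (MonoidAlgebra K (FreeGroup B))) (v : S →₀ (MonoidAlgebra K (FreeGroup B))) (x : {s : S | (s : (MonoidAlgebra K (FreeGroup B))) ≠ f} × (FreeGroup B)) :
    Phi S f v x = (v x.1.1).coeff x.2 := by
  rfl

theorem Phi_eq_zero (S : Set (MonoidAlgebra K (FreeGroup B))) {f : (MonoidAlgebra K (FreeGroup B))} (hf : f ∈ S) {v : S →₀ (MonoidAlgebra K (FreeGroup B))} (h : Phi S f v = 0) :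
    v = Finsupp.single ⟨f, hf⟩ (v ⟨f, hf⟩) := by
  classical
  ext s : 1
  by_cases hs : s = ⟨f, hf⟩
  · rw [hs, Finsupp.single_eq_same]
  · rw [Finsupp.single_eq_of_ne (fun h => hs h)]
    have hs' : (s : (MonoidAlgebra K (FreeGroup B))) ≠ f := fun h => hs (Subtype.ext h)
    apply MonoidAlgebra.ext
    ext g
    have := DFunLike.congr_fun h ((⟨s, hs'⟩ : {s : S | (s : (MonoidAlgebra K (FreeGroup B))) ≠ f}), g)
    rw [Phi_apply] at this
    rw [this]
    simp

/-- The data for the elimination. -/
def data (S : Set (MonoidAlgebra K (FreeGroup B))) (f : (MonoidAlgebra K (FreeGroup B))) [DecidableEq B]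
    [LinearOrder ({s : S | (s : (MonoidAlgebra K (FreeGroup B))) ≠ f} × FreeGroup B)]
    (hlt : ∀ x y : {s : S | (s : (MonoidAlgebra K (FreeGroup B))) ≠ f} × FreeGroup B, x.2.norm < y.2.norm → x < y) :
    Data K (S →₀ (MonoidAlgebra K (FreeGroup B))) (FreeGroup B) ({s : S | (s : (MonoidAlgebra K (FreeGroup B))) ≠ f} × FreeGroup B) where
  ρ := rho S
  ρ_mul := by
    intro g h v
    ext s : 1
    rw [rho_apply, rho_apply, rho_apply, mul_assoc, single_mul_single, mul_one]
  ρ_one := by
    intro v
    ext s : 1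
    rw [rho_apply, ← one_def, mul_one]
  C := letters B
  C_inv := fun c hc => letters_inv hc
  α := fun x g => (x.1, x.2 * g)
  α_mul := by
    intro x g h
    simp only [mul_assoc]
  α_one := by
    intro x
    simp only [mul_one]
  Φ := Phi S f
  equiv := by
    intro g v x
    rw [Phi_apply, Phi_apply, rho_apply, coeff_mul_single_apply, mul_inv_cancel_right, mul_one]
  ne := by
    intro x c hc h
    have := (Prod.ext_iff.1 h).2
    exact letters_ne_one hc (mul_eq_left.1 this)
  uniq := by
    rintro x c ⟨d, rfl⟩ c' ⟨d', rfl⟩ h h'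
    have key : ∀ e : B × Bool, (x.1, x.2 * FreeGroup.mk [e]) < x →
        ∃ M, (x.2⁻¹).toWord = e :: M := by
      intro e he
      rcases norm_mul_letter x.2 e with ⟨_, hM⟩ | hn
      · exact hM
      · exact absurd (hlt x (x.1, x.2 * FreeGroup.mk [e]) (by
          change x.2.norm < (x.2 * FreeGroup.mk [e]).norm
          omega)) (lt_asymm he)
    obtain ⟨M, hM⟩ := key d h
    obtain ⟨M', hM'⟩ := key d' h'
    rw [hM] at hM'
    rw [(List.cons.inj hM').1]
  ne_inv := fun c hc => letters_inv_ne hc

/-- Formal combinations whose value is supported on `T`. -/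
def Usub (S : Set (MonoidAlgebra K (FreeGroup B))) (T : Set (FreeGroup B)) : Submodule K (S →₀ (MonoidAlgebra K (FreeGroup B))) where
  carrier := {v | ∀ x, x ∉ T → (eval S v).coeff x = 0}
  zero_mem' := by
    intro x _
    rw [map_zero]; simp
  add_mem' := by
    intro a b ha hb x hx
    rw [map_add, coeff_add, Finsupp.add_apply, ha x hx, hb x hx, add_zero]
  smul_mem' := by
    intro t a ha x hx
    rw [map_smul, coeff_smul, Finsupp.smul_apply, ha x hx, smul_zero]

theorem mem_Usub {S : Set (MonoidAlgebra K (FreeGroup B))} {T : Set (FreeGroup B)} {v : S →₀ (MonoidAlgebra K (FreeGroup B))} :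
    v ∈ Usub S T ↔ SupportedOn T (eval S v) := by
  constructor
  · intro h g hg
    by_contra hgT
    exact hg (h g hgT)
  · intro h x hx
    by_contra hne
    exact hx (h x hne)

/-- The elements of a right ideal, as a subspace of formal combinations. -/
def Msub (S : Set (MonoidAlgebra K (FreeGroup B))) (N : Submodule (MonoidAlgebra K (FreeGroup B))ᵐᵒᵖ (MonoidAlgebra K (FreeGroup B))) : Submodule K (S →₀ (MonoidAlgebra K (FreeGroup B))) where
  carrier := {v | eval S v ∈ N}
  zero_mem' := by
    change eval S 0 ∈ N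
    rw [map_zero]; exact N.zero_mem
  add_mem' := by
    intro a b ha hb
    change eval S (a + b) ∈ N
    rw [map_add]; exact N.add_mem ha hb
  smul_mem' := by
    intro t a ha
    change eval S (t • a) ∈ N
    rw [map_smul]
    have : t • eval S a = MulOpposite.op (t • (1 : (MonoidAlgebra K (FreeGroup B)))) • eval S a := by
      rw [MulOpposite.smul_eq_mul_unop, MulOpposite.unop_op, mul_smul_comm, mul_one]
    rw [this]
    exact N.smul_mem _ ha

theorem main (T : Set (FreeGroup B)) (hT : IsSubtree T) (I : Submodule (MonoidAlgebra K (FreeGroup B))ᵐᵒᵖ (MonoidAlgebra K (FreeGroup B))) (hI : GeneratedOn T I)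
    (f : (MonoidAlgebra K (FreeGroup B))) (hf : SupportedOn T f) (hprim : ∃ S : Set (MonoidAlgebra K (FreeGroup B)), IsBasis S I ∧ f ∈ S) :
    ∃ S' : Set (MonoidAlgebra K (FreeGroup B)), IsBasis S' I ∧ f ∈ S' ∧ ∀ s ∈ S', SupportedOn T s := by
  classical
  obtain ⟨S, ⟨hind, hspan⟩, hfS⟩ := hprim
  obtain ⟨r, hwf, hlt⟩ := exists_order ({s : S | (s : (MonoidAlgebra K (FreeGroup B))) ≠ f} × FreeGroup B)
    (fun x => x.2.norm)
  let _ : LinearOrder ({s : S | (s : (MonoidAlgebra K (FreeGroup B))) ≠ f} × FreeGroup B) := r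
  have _ : WellFoundedLT ({s : S | (s : (MonoidAlgebra K (FreeGroup B))) ≠ f} × FreeGroup B) := hwf
  let 𝒟 := data (K := K) S f hlt
  let U : Submodule K (S →₀ (MonoidAlgebra K (FreeGroup B))) := Usub S T
  -- injectivity of `eval`
  have hinj : ∀ v : S →₀ (MonoidAlgebra K (FreeGroup B)), eval S v = 0 → v = 0 := by
    intro v hv
    rw [eval_apply] at hv
    exact (linInd_iff _).1 hind v hv
  have hsurj : ∀ x ∈ I, ∃ v : S →₀ (MonoidAlgebra K (FreeGroup B)), eval S v = x := by
    intro x hx
    rw [← hspan] at hx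
    have h1 : x ∈ Submodule.span (MonoidAlgebra K (FreeGroup B))ᵐᵒᵖ (Set.range (Subtype.val : S → (MonoidAlgebra K (FreeGroup B)))) := by
      rwa [Subtype.range_coe]
    obtain ⟨v, hv⟩ := (mem_span_iff _ _).1 h1
    exact ⟨v, by rw [eval_apply]; exact hv⟩
  have hevalI : ∀ v : S →₀ (MonoidAlgebra K (FreeGroup B)), eval S v ∈ I := by
    intro v
    rw [eval_apply, ← hspan]
    refine Submodule.sum_mem _ fun s _ => ?_
    exact Submodule.smul_mem _ (MulOpposite.op (v s)) (Submodule.subset_span s.2)
  let f' : S := ⟨f, hfS⟩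
  have hevalf : ∀ a : (MonoidAlgebra K (FreeGroup B)), eval S (Finsupp.single f' a) = f * a := by
    intro a
    rw [eval_apply, Finsupp.sum_single_index (mul_zero _)]
  -- lemma P
  have hP : ∀ w : FreeGroup B →₀ (S →₀ (MonoidAlgebra K (FreeGroup B))), (∀ g, w g ∈ U) →
      w.sum (fun g u => 𝒟.ρ g u) = 0 → w ∈ E 𝒟.ρ 𝒟.C U := by
    intro w hw hev
    refine lemP (K := K) hT 𝒟.ρ 𝒟.ρ_mul 𝒟.ρ_one
      ((coeffLinearEquiv K).toLinearMap ∘ₗ eval S) ?_ (U := U) ?_ _ w hw hev le_rfl
    · intro g v x
      have h1 : 𝒟.ρ g v = mulV S (single g (1 : K)) v := rfl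
      rw [h1]
      change (eval S (mulV S (single g (1 : K)) v)).coeff (x * g) = (eval S v).coeff x
      rw [eval_mulV, coeff_mul_single_apply, mul_inv_cancel_right, mul_one]
    · intro u
      exact Iff.rfl
  -- the elements `v p`
  have hchoice : ∀ p, ∃ u : S →₀ (MonoidAlgebra K (FreeGroup B)), 𝒟.Lead U p →
      u ∈ U ∧ 𝒟.Φ u p = 1 ∧ u ∈ lev 𝒟.Φ (Set.Iic p) := by
    intro p
    by_cases hp : 𝒟.Lead U p
    · obtain ⟨⟨u, h1, h2, h3⟩, _⟩ := hp
      exact ⟨u, fun _ => ⟨h1, h2, h3⟩⟩
    · exact ⟨0, fun h => absurd h hp⟩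
  choose vv hvv using hchoice
  let z : Option {p // 𝒟.Lead U p} → (MonoidAlgebra K (FreeGroup B)) := fun o => o.elim f (fun p => eval S (vv p.1))
  have hzT : ∀ o, SupportedOn T (z o) := by
    rintro (_ | p)
    · exact hf
    · exact mem_Usub.1 (hvv p.1 p.2).1
  refine ⟨Set.range z, ⟨?_, ?_⟩, ⟨none, rfl⟩, ?_⟩
  · -- independence
    refine LinearIndependent.linearIndepOn_id (v := z) ?_
    rw [linInd_iff]
    intro a ha
    let a₁ : {p // 𝒟.Lead U p} →₀ (MonoidAlgebra K (FreeGroup B)) := a.some
    have hsplit : a.sum (fun i b => z i * b) =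
        f * a none + a₁.sum (fun p b => eval S (vv p.1) * b) := by
      rw [Finsupp.sum_option_index _ _ (fun o => mul_zero _) (fun o b c => mul_add _ _ _)]
      rfl
    rw [hsplit] at ha
    -- lift to formal combinations
    have hsum : a₁.sum (fun p b => mulV S b (vv p.1)) + Finsupp.single f' (a none) = 0 := by
      apply hinj
      rw [map_add, hevalf, Finsupp.sum, map_sum]
      rw [← ha, add_comm]
      congr 1
      exact Finset.sum_congr rfl fun p _ => eval_mulV S _ _
    let k : FreeGroup B →₀ (S →₀ (MonoidAlgebra K (FreeGroup B))) :=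
      (a none).coeff.mapRange (fun t => t • Finsupp.single f' (1 : (MonoidAlgebra K (FreeGroup B)))) (zero_smul _ _)
    have ha₁ : a₁.mapRange (coeffLinearEquiv K) (map_zero _) = 0 := by
      refine 𝒟.indep hP (fun p : {p // 𝒟.Lead U p} => p.1) Subtype.val_injective
        (fun p => vv p.1) ?_ _ k ?_ ?_
      · intro p
        exact ⟨(hvv p.1 p.2).1, (hvv p.1 p.2).2.1, (hvv p.1 p.2).2.2, p.2.2⟩
      · intro g
        refine ⟨?_, ?_⟩
        · refine U.smul_mem _ ?_
          change Finsupp.single f' (1 : (MonoidAlgebra K (FreeGroup B))) ∈ Usub S T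
          rw [mem_Usub, hevalf, mul_one]
          exact hf
        · rw [Finsupp.mapRange_apply, map_smul]
          have : 𝒟.Φ (Finsupp.single f' (1 : (MonoidAlgebra K (FreeGroup B)))) = 0 := by
            ext x
            change Phi S f (Finsupp.single f' (1 : (MonoidAlgebra K (FreeGroup B)))) x = 0
            rw [Phi_apply, Finsupp.single_eq_of_ne]
            · simp
            · intro h
              exact x.1.2 (congrArg Subtype.val h)
          rw [this, smul_zero]
      · rw [Finsupp.sum_mapRange_index (by intro; exact Finsupp.sum_zero_index),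
          Finsupp.sum_mapRange_index (by intro; exact map_zero _)]
        rw [← hsum]
        congr 1
        · refine Finsupp.sum_congr fun p _ => ?_
          exact (mulV_eq S _ _).symm
        · have h1 := mulV_eq S (a none) (Finsupp.single f' (1 : (MonoidAlgebra K (FreeGroup B))))
          have h2 : mulV S (a none) (Finsupp.single f' (1 : (MonoidAlgebra K (FreeGroup B)))) =
              Finsupp.single f' (a none) := by
            rw [mulV, Finsupp.mapRange.linearMap_apply, Finsupp.mapRange_single,
              LinearMap.mulRight_apply, one_mul]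
          rw [← h2, h1]
          refine Finsupp.sum_congr fun g _ => ?_
          exact map_smul _ _ _
    have ha₁' : a₁ = 0 := by
      ext p : 1
      have := DFunLike.congr_fun ha₁ p
      rw [Finsupp.mapRange_apply] at this
      exact (coeffLinearEquiv K).injective (this.trans (map_zero _).symm)
    have ha₀ : a none = 0 := by
      rw [ha₁', Finsupp.sum_zero_index, zero_add] at hsum
      exact Finsupp.single_eq_zero.1 hsum
    ext o : 1
    cases o with
    | none => exact ha₀
    | some p => exact DFunLike.congr_fun ha₁' p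
  · -- generation
    refine le_antisymm ?_ ?_
    · rw [Submodule.span_le]
      rintro _ ⟨o, rfl⟩
      cases o with
      | none => exact hspan ▸ Submodule.subset_span hfS
      | some p => exact hevalI _
    · set N := Submodule.span (MonoidAlgebra K (FreeGroup B))ᵐᵒᵖ (Set.range z) with hN
      have hUM : U ≤ Msub S N := by
        refine 𝒟.gen vv hvv ?_ ?_ ?_
        · intro u hu h0
          have h1 := Phi_eq_zero S hfS h0
          change eval S u ∈ N
          rw [h1, hevalf]
          exact N.smul_mem (MulOpposite.op (u ⟨f, hfS⟩)) (Submodule.subset_span ⟨none, rfl⟩)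
        · intro p hp
          exact Submodule.subset_span ⟨some ⟨p, hp⟩, rfl⟩
        · intro c _ u hu
          change eval S (mulV S (single c (1 : K)) u) ∈ N
          rw [eval_mulV]
          exact N.smul_mem (MulOpposite.op (single c (1 : K))) hu
      rw [← hI, Submodule.span_le]
      rintro x ⟨hxI, hxT⟩
      obtain ⟨v, rfl⟩ := hsurj x hxI
      exact hUM (mem_Usub.2 hxT)
  · rintro _ ⟨o, rfl⟩
    exact hzT o

end main

/-- **Answer to Q1 of MP_1698af_al** (positive, over every field `K`, for a free group on any set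
`B` and every right ideal `I`). -/
theorem result (K : Type u) [Field K] (B : Type v) (T : Set (FreeGroup B)) (hT : IsSubtree T)
    (I : Submodule (MonoidAlgebra K (FreeGroup B))ᵐᵒᵖ (MonoidAlgebra K (FreeGroup B)))
    (hI : GeneratedOn T I) (f : MonoidAlgebra K (FreeGroup B)) (_hfI : f ∈ I)
    (hf : SupportedOn T f)
    (hprim : ∃ S : Set (MonoidAlgebra K (FreeGroup B)), IsBasis S I ∧ f ∈ S) :
    ∃ S' : Set (MonoidAlgebra K (FreeGroup B)),
      IsBasis S' I ∧ f ∈ S' ∧ ∀ s ∈ S', SupportedOn T s :=
  main T hT I hI f hf hprim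

end

end Pool.Agent.Results.MP_1698af_al.PrimitiveBasis
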